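import Mathlib

/-!
The least maximiser of a bounded supermodular function on a lattice with a strictly increasing
integral rank function.
-/

namespace Pool.Agent.U10.Sch

theorem exists_least_max {α : Type*} [Lattice α] [Nonempty α] (δ : α → ℤ) (d : α → ℕ)
    (hd : ∀ x y, x ≤ y → d y ≤ d x → x = y)
    (hδ : ∀ x y, δ x + δ y ≤ δ (x ⊔ y) + δ (x ⊓ y)) (m : ℤ) (hb : ∀ x, δ x ≤ m) :
    ∃ x₀, (∀ x, δ x ≤ δ x₀) ∧ (∀ x, δ x = δ x₀ → x₀ ≤ x) ∧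
      (∀ u, (∀ w, u ≤ w → δ w ≤ δ u) → x₀ ≤ u) := by
  classical
  obtain ⟨a⟩ := ‹Nonempty α›
  obtain ⟨D, ⟨x₁, hx₁⟩, hmax⟩ := Int.exists_greatest_of_bdd
    (P := fun k => ∃ x : α, δ x = k) ⟨m, fun z ⟨x, hz⟩ => hz ▸ hb x⟩ ⟨δ a, a, rfl⟩
  have hex : ∃ k : ℕ, ∃ x : α, δ x = D ∧ d x = k := ⟨_, x₁, hx₁, rfl⟩
  obtain ⟨x₀, hx₀, hk⟩ := Nat.find_spec hex
  have hle : ∀ x, δ x ≤ D := fun x => hmax _ ⟨x, rfl⟩
  have hmin : ∀ x, δ x = D → x₀ ≤ x := by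
    intro x hx
    have h1 := hδ x₀ x
    have h2 := hle (x₀ ⊔ x)
    have h3 := hle (x₀ ⊓ x)
    have h4 : δ (x₀ ⊓ x) = D := by omega
    have h5 : Nat.find hex ≤ d (x₀ ⊓ x) := Nat.find_min' hex ⟨_, h4, rfl⟩
    have h6 : x₀ ⊓ x = x₀ := hd _ _ inf_le_left (by rw [hk]; exact h5)
    exact inf_eq_left.1 h6
  refine ⟨x₀, fun x => hx₀ ▸ hle x, fun x hx => hmin x (hx.trans hx₀), fun u hu => ?_⟩
  have h1 := hδ x₀ u
  have h2 := hu (x₀ ⊔ u) le_sup_right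
  have h3 := hle (x₀ ⊓ u)
  have h4 : δ (x₀ ⊓ u) = D := by omega
  exact (hmin _ h4).trans inf_le_right

end Pool.Agent.U10.Sch
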